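import Pool.Agent.Helper285.Lines.Main

/-!
# The number of lines among `m` points of `F_3^n` is maximised in the smallest dimension

For `S ⊆ F_3^n` put `T(S) = |{(x, y) ∈ S × S : -(x + y) ∈ S}| = |S| + 6 L(S)`, and let `F(n, m)`
be the maximum of `T` over the `m`-subsets of `F_3^n`.  The proof that `F(n, m) = F(d, m)` for
`3^(d-1) < m ≤ 3^d` is by strong induction on `m`; write `h = 3^(d-1)` and `m = h + e`.

* If `50 e ≤ 19 h` one shows by induction on `n` that `F(n, m) ≤ h^2 + G(e)`, where `G(e)` is the
  maximum of `6 p q + F(d-1, p) + F(d-1, q)` over `p + q = e`; averaging over all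
  hyperplanes gives a hyperplane section with many points, and the sections are bounded by
  induction.  A full hyperplane together with optimal sets of `p` and `q` points in its two
  translates shows that the bound is attained in dimension `d`.
* If `50 e > 19 h` one projects `F_3^(n+1)` along the direction that identifies the fewest points:
  if `k` points are lost then `(3^(n+1) - 1) k ≤ m (m - 1)` and
  `F(n+1, m) ≤ F(n, m - k) + 3 k^2`, and in dimension `d` the `k` points are added back by
  removing `k` well chosen points from the complement of an optimal set.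
-/

namespace Pool.Agent.Results.MP_757c6b_co.SmallestDimension

open Finset

/-! ### The notions in the statement -/

/-- A line of `F_3^n`: a set `{x, x + v, x + 2 v}` with `v ≠ 0`. -/
def IsLine {n : ℕ} (l : Finset (Fin n → ZMod 3)) : Prop :=
  ∃ x v : Fin n → ZMod 3, v ≠ 0 ∧ l = {x, x + v, x + 2 • v}

open Classical in
/-- `L S` is the number of lines contained in `S`. -/
noncomputable def L {n : ℕ} (S : Finset (Fin n → ZMod 3)) : ℕ :=
  (S.powerset.filter (fun l => IsLine l)).card

/-- `M m n` is the maximum of `L S` over the sets `S` of `m` points of `F_3^n`. -/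
noncomputable def M (m n : ℕ) : ℕ :=
  ((univ : Finset (Fin n → ZMod 3)).powersetCard m).sup L

/-! ### Lines and ordered pairs -/

open Pool.Agent.Helper285.Lines (T F)

theorem three_zero_fun {n : ℕ} (x : Fin n → ZMod 3) : x + x + x = 0 := by
  funext i
  have : ∀ z : ZMod 3, z + z + z = 0 := by decide
  exact this (x i)

open Classical in
theorem fiber_line {n : ℕ} (a v : Fin n → ZMod 3) (_hv : v ≠ 0)
    (p : (Fin n → ZMod 3) × (Fin n → ZMod 3)) (hp : p ∈ ({a, a + v, a + 2 • v} : Finset (Fin n → ZMod 3)).offDiag) :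
    ({p.1, p.2, -(p.1 + p.2)} : Finset (Fin n → ZMod 3)) = {a, a + v, a + 2 • v} := by
  obtain ⟨x, y⟩ := p
  rw [mem_offDiag] at hp
  obtain ⟨h1, h2, h3⟩ := hp
  simp only at h1 h2 h3
  simp only [mem_insert, mem_singleton] at h1 h2
  have ha := three_zero_fun a
  have hvv := three_zero_fun v
  have e1 : -(a + (a + v)) = a + 2 • v := by
    linear_combination -ha - hvv
  have e2 : -(a + (a + 2 • v)) = a + v := by
    linear_combination -ha - hvv
  have e3 : -((a + v) + (a + 2 • v)) = a := by
    linear_combination -ha - hvv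
  have e1' : -((a + v) + a) = a + 2 • v := by
    linear_combination -ha - hvv
  have e2' : -((a + 2 • v) + a) = a + v := by
    linear_combination -ha - hvv
  have e3' : -((a + 2 • v) + (a + v)) = a := by
    linear_combination -ha - hvv
  rcases h1 with rfl | rfl | rfl <;> rcases h2 with rfl | rfl | rfl
  · exact absurd rfl h3
  · rw [e1]
  · rw [e2]
    ext z; simp only [mem_insert, mem_singleton]; tauto
  · rw [e1']
    ext z; simp only [mem_insert, mem_singleton]; tauto
  · exact absurd rfl h3
  · rw [e3]
    ext z; simp only [mem_insert, mem_singleton]; tauto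
  · rw [e2']
    ext z; simp only [mem_insert, mem_singleton]; tauto
  · rw [e3']
    ext z; simp only [mem_insert, mem_singleton]; tauto
  · exact absurd rfl h3

open Classical in
theorem card_line {n : ℕ} (a v : Fin n → ZMod 3) (hv : v ≠ 0) :
    ({a, a + v, a + 2 • v} : Finset (Fin n → ZMod 3)).card = 3 := by
  have hvv := three_zero_fun v
  rw [card_eq_three]
  refine ⟨a, a + v, a + 2 • v, ?_, ?_, ?_, rfl⟩
  · intro h
    apply hv
    linear_combination -h
  · intro h
    apply hv
    linear_combination h + hvv
  · intro h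
    apply hv
    linear_combination -h

theorem T_eq_L {n : ℕ} (S : Finset (Fin n → ZMod 3)) : T S = S.card + 6 * L S := by
  classical
  obtain ⟨P, hP, hT⟩ : ∃ P : Finset ((Fin n → ZMod 3) × (Fin n → ZMod 3)),
      (∀ p, p ∈ P ↔ (p.1 ∈ S ∧ p.2 ∈ S) ∧ -(p.1 + p.2) ∈ S) ∧ T S = P.card := by
    refine ⟨_, ?_, rfl⟩
    intro p
    refine (@Finset.mem_filter _ _ (_) _ _).trans ?_
    rw [mem_product]
  obtain ⟨Q, hQ, hL⟩ : ∃ Q : Finset (Finset (Fin n → ZMod 3)),
      (∀ l, l ∈ Q ↔ l ⊆ S ∧ IsLine l) ∧ L S = Q.card := by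
    refine ⟨_, ?_, rfl⟩
    intro l
    refine (@Finset.mem_filter _ _ (_) _ _).trans ?_
    rw [mem_powerset]
  rw [hT, hL, ← card_filter_add_card_filter_not (s := P) (fun p => p.1 = p.2)]
  congr 1
  · symm
    apply card_bij (fun x _ => (x, x))
    · intro x hx
      rw [mem_filter, hP]
      have : -(x + x) = x := by linear_combination -(three_zero_fun x)
      refine ⟨⟨⟨hx, hx⟩, ?_⟩, rfl⟩
      simp only
      rw [this]
      exact hx
    · intro x _ y _ h
      exact (Prod.mk.inj h).1
    · rintro ⟨x, y⟩ h
      rw [mem_filter, hP] at h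
      exact ⟨x, h.1.1.1, by rw [show y = x from h.2.symm]⟩
  · have hmaps : ∀ p ∈ P.filter (fun p => ¬ p.1 = p.2),
        ({p.1, p.2, -(p.1 + p.2)} : Finset (Fin n → ZMod 3)) ∈ Q := by
      rintro ⟨x, y⟩ h
      rw [mem_filter, hP] at h
      obtain ⟨⟨⟨hx, hy⟩, hz⟩, hne⟩ := h
      simp only at hx hy hz hne ⊢
      rw [hQ]
      constructor
      · intro w hw
        simp only [mem_insert, mem_singleton] at hw
        rcases hw with rfl | rfl | rfl
        · exact hx
        · exact hy
        · exact hz
      · refine ⟨x, y - x, sub_ne_zero.mpr (Ne.symm hne), ?_⟩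
        have e1 : x + (y - x) = y := by ring
        have e2 : x + 2 • (y - x) = -(x + y) := by linear_combination three_zero_fun y
        rw [e1, e2]
    rw [card_eq_sum_card_fiberwise hmaps]
    have hfib : ∀ l ∈ Q, ((P.filter (fun p => ¬ p.1 = p.2)).filter
          (fun p => ({p.1, p.2, -(p.1 + p.2)} : Finset (Fin n → ZMod 3)) = l)).card = 6 := by
      intro l hl
      rw [hQ] at hl
      obtain ⟨hlS, a, v, hv, rfl⟩ := hl
      have e : ((P.filter (fun p => ¬ p.1 = p.2)).filter
          (fun p => ({p.1, p.2, -(p.1 + p.2)} : Finset (Fin n → ZMod 3)) = {a, a + v, a + 2 • v}))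
          = ({a, a + v, a + 2 • v} : Finset (Fin n → ZMod 3)).offDiag := by
        ext p
        constructor
        · intro hp
          rw [mem_filter, mem_filter] at hp
          rw [mem_offDiag, ← hp.2]
          exact ⟨mem_insert_self _ _, mem_insert_of_mem (mem_insert_self _ _), hp.1.2⟩
        · intro hp
          have h1 := fiber_line a v hv p hp
          rw [mem_offDiag] at hp
          rw [mem_filter, mem_filter, hP]
          refine ⟨⟨⟨⟨hlS hp.1, hlS hp.2.1⟩, ?_⟩, hp.2.2⟩, h1⟩
          apply hlS
          rw [← h1]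
          exact mem_insert_of_mem (mem_insert_of_mem (mem_singleton_self _))
      rw [e, offDiag_card, card_line a v hv]
    rw [sum_congr rfl hfib, sum_const, smul_eq_mul, mul_comm]

theorem F_eq_M {n m : ℕ} (hm : m ≤ 3 ^ n) : F n m = m + 6 * M m n := by
  have hne : (powersetCard m (univ : Finset (Fin n → ZMod 3))).Nonempty := by
    rw [powersetCard_nonempty, card_univ]
    simpa [ZMod.card] using hm
  apply le_antisymm
  · obtain ⟨S, hS, hT⟩ := Pool.Agent.Helper285.Lines.exists_F hm
    rw [← hT, T_eq_L, hS]
    have : L S ≤ M m n := by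
      unfold M
      exact le_sup (f := L) (mem_powersetCard.mpr ⟨subset_univ S, hS⟩)
    omega
  · obtain ⟨S, hS, hL⟩ := exists_mem_eq_sup _ hne L
    have hc : S.card = m := (mem_powersetCard.mp hS).2
    have h1 := Pool.Agent.Helper285.Lines.le_F_of S
    rw [T_eq_L, hc] at h1
    have : M m n = L S := hL
    omega

/-- For every `m ≥ 1`, with `d = ⌈log_3 m⌉` (the least `d` with `m ≤ 3^d`), the maximal number
of lines in a set of `m` points of `F_3^n` is the same for all `n ≥ d`. -/
theorem result : ∀ m : ℕ, 1 ≤ m → ∀ n : ℕ, Nat.clog 3 m ≤ n → M m n = M m (Nat.clog 3 m) := by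
  intro m _ n hn
  have h1 : m ≤ 3 ^ Nat.clog 3 m := Nat.le_pow_clog (by norm_num) m
  have h2 : m ≤ 3 ^ n := h1.trans (Nat.pow_le_pow_right (by norm_num) hn)
  have h3 := (Pool.Agent.Helper285.Lines.Q_all m).1 n (Nat.clog 3 m) h1
  have h4 := Pool.Agent.Helper285.Lines.F_mono hn m
  rw [F_eq_M h1, F_eq_M h2] at h3 h4
  omega

end Pool.Agent.Results.MP_757c6b_co.SmallestDimension
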